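import Pool.Agent.N684.BK.Stm

/-!
Project BK (helper684), part DIM: components of hypersurface sections have codimension one.
The inequality `dim P ≤ dim Q + 1` is a port of `Pool.Agent.W338.DZ.DIM` to a general field.
-/

set_option autoImplicit false
set_option linter.all false

open MvPolynomial

namespace Pool.Agent.N769.BK.DIM

open Pool.Agent.N684.BK (dimQ S_DIM S_MONO)

variable {F : Type} [Field F]

/-- The transcendence degree of a polynomial ring modulo a nonzero nonunit polynomial. -/
theorem trdeg_mod {s : ℕ} {p : MvPolynomial (Fin s) F} (hp0 : p ≠ 0) (hp : ¬ IsUnit p)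
    {J : Ideal (MvPolynomial (Fin s) F)} (hJ : J ≤ Ideal.span {p}) :
    (s : Cardinal) ≤ Algebra.trdeg F (MvPolynomial (Fin s) F ⧸ J) + 1 := by
  obtain ⟨t, ht⟩ : ∃ t, t ∈ p.vars := by
    by_contra hn
    push Not at hn
    have h1 : p.vars = ∅ := Finset.eq_empty_of_forall_notMem hn
    rw [vars_eq_empty_iff_eq_C] at h1
    apply hp
    rw [h1]
    refine IsUnit.map C (isUnit_iff_ne_zero.2 fun h => hp0 ?_)
    rw [h1, h, C_0]
  have ht' : p.degreeOf t ≠ 0 := mem_vars_iff_degreeOf_ne_zero.1 ht
  have h1 : Function.Injective ((Ideal.Quotient.mkₐ F J).comp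
      (rename (Subtype.val : {j : Fin s // j ≠ t} → Fin s) :
        MvPolynomial {j : Fin s // j ≠ t} F →ₐ[F] MvPolynomial (Fin s) F)) := by
    rw [injective_iff_map_eq_zero]
    intro a ha
    have h2 : rename (Subtype.val : {j : Fin s // j ≠ t} → Fin s) a ∈ J :=
      Ideal.Quotient.eq_zero_iff_mem.1 ha
    obtain ⟨g, hg⟩ := Ideal.mem_span_singleton.1 (hJ h2)
    by_contra ha0
    have h3 : rename (Subtype.val : {j : Fin s // j ≠ t} → Fin s) a ≠ 0 := fun h => ha0 <|
      rename_injective _ Subtype.val_injective (by rw [h, map_zero])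
    have hg0 : g ≠ 0 := fun h => h3 (by rw [hg, h, mul_zero])
    have h4 := degreeOf_mul_eq (n := t) hp0 hg0
    rw [← hg] at h4
    have h5 : (rename (Subtype.val : {j : Fin s // j ≠ t} → Fin s) a).degreeOf t ≠ 0 := by
      omega
    rw [← mem_vars_iff_degreeOf_ne_zero] at h5
    obtain ⟨i, -, hi⟩ := mem_vars_rename _ _ h5
    exact i.2 hi
  have h2 := _root_.trdeg_le_of_injective _ h1
  rw [MvPolynomial.trdeg_of_isDomain] at h2
  have h3 : Fintype.card {j : Fin s // j ≠ t} + 1 = s := by
    have := t.pos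
    rw [Fintype.card_subtype_compl, Fintype.card_subtype_eq, Fintype.card_fin]
    omega
  calc (s : Cardinal) = ((Fintype.card {j : Fin s // j ≠ t} + 1 : ℕ) : Cardinal) := by rw [h3]
    _ = Cardinal.lift (Cardinal.mk {j : Fin s // j ≠ t}) + 1 := by
        rw [Cardinal.mk_fintype, Cardinal.lift_natCast]; push_cast; rfl
    _ ≤ _ := by gcongr

/-- The main case: a domain. -/
theorem dom {A : Type} [CommRing A] [IsDomain A] [Algebra F A] [Algebra.FiniteType F A]
    (f : A) (q : Ideal A) (hq : q ∈ (Ideal.span {f}).minimalPrimes) :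
    Algebra.trdeg F A ≤ Algebra.trdeg F (A ⧸ q) + 1 := by
  obtain ⟨s, g, hg, hi⟩ := exists_integral_inj_algHom_of_fg F A
  have hnoeth : IsNoetherianRing A := Algebra.FiniteType.isNoetherianRing F A
  have hqp : q.IsPrime := hq.1.1
  have hh := Ideal.height_le_one_of_isPrincipal_of_mem_minimalPrimes (Ideal.span {f}) q hq
  let alg : Algebra (MvPolynomial (Fin s) F) A := g.toRingHom.toAlgebra
  have hmap : ∀ x, algebraMap (MvPolynomial (Fin s) F) A x = g x := fun x => rfl
  have tow : IsScalarTower F (MvPolynomial (Fin s) F) A :=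
    IsScalarTower.of_algebraMap_eq fun x => by rw [hmap, AlgHom.commutes]
  have fai : FaithfulSMul (MvPolynomial (Fin s) F) A :=
    (faithfulSMul_iff_algebraMap_injective _ _).2 hg
  have int : Algebra.IsIntegral (MvPolynomial (Fin s) F) A := ⟨hi⟩
  have ala : Algebra.IsAlgebraic (MvPolynomial (Fin s) F) A := inferInstance
  have hA : Algebra.trdeg F A = s := by
    rw [← _root_.trdeg_add_eq F (MvPolynomial (Fin s) F) (A := A), _root_.trdeg_eq_zero (R := MvPolynomial (Fin s) F) (A := A), add_zero,
      MvPolynomial.trdeg_of_isDomain]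
    simp
  rw [hA]
  have hinj : Function.Injective (Ideal.quotientMapₐ (R₁ := F) q g le_rfl :
      (MvPolynomial (Fin s) F ⧸ q.comap g) →ₐ[F] (A ⧸ q)) := Ideal.quotientMap_injective
  have h1 := _root_.trdeg_le_of_injective _ hinj
  refine le_trans ?_ (add_le_add_left h1 1)
  have hpr : (q.comap g).IsPrime := Ideal.comap_isPrime g q
  by_cases h0 : q.comap g = ⊥
  · refine le_trans ?_ (self_le_add_right _ _)
    have h2 : Function.Injective (Ideal.Quotient.mkₐ F (q.comap g)) := by
      rw [injective_iff_map_eq_zero]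
      intro a ha
      have h3 : a ∈ q.comap g := Ideal.Quotient.eq_zero_iff_mem.1 ha
      rwa [h0] at h3
    have h3 := _root_.trdeg_le_of_injective _ h2
    rw [MvPolynomial.trdeg_of_isDomain] at h3
    simpa using h3
  obtain ⟨p, hp, hpp⟩ := Ideal.IsPrime.exists_mem_prime_of_ne_bot hpr h0
  refine trdeg_mod hpp.ne_zero hpp.not_isUnit ?_
  have hspan : (Ideal.span {p}).IsPrime := (Ideal.span_singleton_prime hpp.ne_zero).2 hpp
  by_contra hle
  have hlt : Ideal.span {p} < q.comap g := by
    refine lt_of_le_not_ge ((Ideal.span_singleton_le_iff_mem _).2 hp) hle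
  have : q.LiesOver (q.comap g) := ⟨rfl⟩
  obtain ⟨P, hP, hPp, hPo⟩ := Ideal.exists_ideal_lt_liesOver_of_lt q hlt
  have hPb : (⊥ : Ideal A) < P := by
    rw [bot_lt_iff_ne_bot]
    intro hb
    have h2 := hPo.over
    have h3 : p ∈ P.under (MvPolynomial (Fin s) F) := by
      rw [← h2]; exact Ideal.mem_span_singleton_self p
    rw [hb] at h3
    have h4 : g p = 0 := h3
    exact hpp.ne_zero (hg (by rw [h4, map_zero]))
  have h5 := (Ideal.height_le_iff (n := 1)).1 (by exact_mod_cast hh) P hPp hP
  have h6 : P.height ≤ 0 := by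
    rw [Nat.cast_one, Order.lt_one_iff] at h5
    exact h5.le
  have h7 := (Ideal.height_le_iff (n := 0)).1 (by exact_mod_cast h6) ⊥ Ideal.isPrime_bot hPb
  exact absurd h7 not_lt_zero

/-- The transcendence degree decreases strictly for a surjection with nonzero kernel. -/
theorem strict {A B : Type} [CommRing A] [IsDomain A] [Algebra F A] [CommRing B] [Nontrivial B]
    [Algebra F B] (φ : A →ₐ[F] B) (hφ : Function.Surjective φ) (a : A) (ha : a ≠ 0)
    (ha0 : φ a = 0) [IsDomain B] : Algebra.trdeg F B + 1 ≤ Algebra.trdeg F A := by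
  obtain ⟨ι, x, hx⟩ := exists_isTranscendenceBasis' F (A := B)
  choose y hy using fun i => hφ (x i)
  have hyx : φ ∘ y = x := funext hy
  have hyi : AlgebraicIndependent F y := by
    apply AlgebraicIndependent.of_comp φ
    rw [hyx]
    exact hx.1
  have htr : Transcendental (Algebra.adjoin F (Set.range y)) a := by
    intro halg
    obtain ⟨p, hp0, hp⟩ := halg.exists_nonzero_coeff_and_aeval_eq_zero
      (mem_nonZeroDivisors_of_ne_zero ha)
    -- the constant coefficient is in the kernel
    have h1 : φ (p.coeff 0 : A) = 0 := by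
      have h2 := congrArg φ hp
      rw [Polynomial.aeval_def, Polynomial.eval₂_eq_sum_range, map_sum, Finset.sum_range_succ',
        map_zero] at h2
      have h3 : ∑ i ∈ Finset.range p.natDegree,
          φ ((algebraMap (Algebra.adjoin F (Set.range y)) A) (p.coeff (i + 1)) * a ^ (i + 1)) = 0 := by
        refine Finset.sum_eq_zero fun i _ => ?_
        rw [map_mul, map_pow, ha0, pow_succ, mul_zero, mul_zero]
      rw [h3, zero_add, pow_zero, mul_one] at h2
      exact h2
    have h4 : ∀ z : A, z ∈ Algebra.adjoin F (Set.range y) → ∃ P : MvPolynomial ι F,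
        aeval y P = z := by
      intro z hz
      rw [Algebra.adjoin_range_eq_range_aeval] at hz
      exact hz
    obtain ⟨P, hP⟩ := h4 _ (p.coeff 0).2
    have h5 : aeval x P = 0 := by
      rw [← hyx]
      have : aeval (φ ∘ y) P = φ (aeval y P) := by
        rw [MvPolynomial.comp_aeval_apply]
        rfl
      rw [this]
      have hP' : aeval y P = (p.coeff 0 : A) := hP
      rw [hP', h1]
    have h6 : P = 0 := hx.1.eq_zero_of_aeval_eq_zero P h5
    apply hp0
    apply Subtype.ext
    rw [← hP, h6]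
    simp
  have h7 := ((hyi.option_iff_transcendental a).2 htr).cardinalMk_le_trdeg
  rw [Cardinal.mk_option, hx.cardinalMk_eq_trdeg] at h7
  exact h7

theorem mono : S_MONO := by
  intro F _ N P Q hP hQ hPQ
  have h1 := trdeg_le_of_surjective (Ideal.Quotient.factorₐ F hPQ)
    (Ideal.Quotient.factor_surjective hPQ)
  exact Cardinal.toNat_le_toNat h1 trdeg_lt_aleph0_of_finiteType

theorem dim : S_DIM := by
  intro F _ n P Q f hP hf hQ
  have hQ' := hQ
  have hs : Function.Surjective (Ideal.Quotient.mk P) := Ideal.Quotient.mk_surjective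
  have h1 : P ⊔ Ideal.span {f} =
      (Ideal.span {Ideal.Quotient.mk P f}).comap (Ideal.Quotient.mk P) := by
    rw [← Set.image_singleton, ← Ideal.map_span, Ideal.comap_map_of_surjective _ hs,
      ← RingHom.ker_eq_comap_bot, Ideal.mk_ker, sup_comm]
  apply le_antisymm
  · have hQp : Q.IsPrime := hQ.1.1
    have hPQ : P ≤ Q := le_sup_left.trans hQ.1.2
    have hfQ : f ∈ Q := hQ.1.2 (Ideal.mem_sup_right (Ideal.mem_span_singleton_self f))
    have h2 := strict (Ideal.Quotient.factorₐ F hPQ) (Ideal.Quotient.factor_surjective hPQ)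
      (Ideal.Quotient.mk P f) (fun h => hf (Ideal.Quotient.eq_zero_iff_mem.1 h))
      (by
        show Ideal.Quotient.mk Q f = 0
        exact Ideal.Quotient.eq_zero_iff_mem.2 hfQ)
    have h3 := Cardinal.toNat_le_toNat h2 trdeg_lt_aleph0_of_finiteType
    have h6 : Algebra.trdeg F (MvPolynomial (Fin n) F ⧸ Q) < Cardinal.aleph0 :=
      trdeg_lt_aleph0_of_finiteType
    rwa [Cardinal.toNat_add h6 Cardinal.one_lt_aleph0, Cardinal.one_toNat] at h3
  · rw [h1, Ideal.comap_minimalPrimes_eq_of_surjective hs] at hQ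
    obtain ⟨q, hq, rfl⟩ := hQ
    have hP' := hP
    have h2 := dom (F := F) (A := MvPolynomial (Fin n) F ⧸ P) _ q hq
    have h3 : Function.Surjective (Ideal.quotientMapₐ (R₁ := F) q (Ideal.Quotient.mkₐ F P) le_rfl :
        (MvPolynomial (Fin n) F ⧸ q.comap (Ideal.Quotient.mkₐ F P)) →ₐ[F] _) :=
      Ideal.quotientMap_surjective (H := le_rfl) hs
    have h4 := _root_.trdeg_le_of_surjective _ h3
    have h5 : Algebra.trdeg F (MvPolynomial (Fin n) F ⧸ P) ≤
        Algebra.trdeg F (MvPolynomial (Fin n) F ⧸ q.comap (Ideal.Quotient.mk P)) + 1 :=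
      h2.trans (add_le_add_left h4 1)
    have h6 : Algebra.trdeg F (MvPolynomial (Fin n) F ⧸ q.comap (Ideal.Quotient.mk P)) <
        Cardinal.aleph0 := trdeg_lt_aleph0_of_finiteType
    unfold dimQ
    have h7 := Cardinal.toNat_le_toNat h5 (Cardinal.add_lt_aleph0 h6 Cardinal.one_lt_aleph0)
    rwa [Cardinal.toNat_add h6 Cardinal.one_lt_aleph0, Cardinal.one_toNat] at h7

theorem DIM : S_DIM := dim

theorem MONO : S_MONO := mono

end Pool.Agent.N769.BK.DIM
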