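import Pool.Agent.N684.BK.Stm

/-!
Project BK (helper684), part MULSUM: Hilbert functions of hypersurface sections and of several
components, for the weighted degree over a general field. A port of `Pool.Agent.W563.DZ.MulSum`.
-/

set_option autoImplicit false
set_option linter.all false

namespace Pool.Agent.N769.BK.MULSUM

open MvPolynomial Module
open Pool.Agent.N684.BK (PW wd lev hil S_MUL S_SUM)

variable {F : Type} [Field F] {n : ℕ} {wt : Fin n → ℕ}

lemma mem_PW {K : ℕ} {f : MvPolynomial (Fin n) F} :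
    f ∈ PW F wt K ↔ ∀ m ∈ f.support, wd wt m ≤ K := by
  unfold PW
  rw [mem_restrictSupport_iff]
  exact Iff.rfl

lemma wd_add (a b : Fin n →₀ ℕ) : wd wt (a + b) = wd wt a + wd wt b := by
  unfold wd
  rw [← Finset.sum_add_distrib]
  refine Finset.sum_congr rfl fun i _ => ?_
  rw [Finsupp.add_apply, mul_add]

lemma mul_mem_PW {K M : ℕ} {f g : MvPolynomial (Fin n) F} (hf : f ∈ PW F wt M)
    (hg : g ∈ PW F wt K) : f * g ∈ PW F wt (K + M) := by
  classical
  rw [mem_PW] at *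
  intro m hm
  obtain ⟨a, ha, b, hb, rfl⟩ := Finset.mem_add.1 (MvPolynomial.support_mul f g hm)
  rw [wd_add, add_comm]
  exact add_le_add (hg b hb) (hf a ha)

lemma PW_mono {K M : ℕ} (h : K ≤ M) : PW F wt K ≤ PW F wt M := by
  intro f hf
  rw [mem_PW] at *
  exact fun m hm => (hf m hm).trans h

lemma exists_PW (wt : Fin n → ℕ) (f : MvPolynomial (Fin n) F) : ∃ K, f ∈ PW F wt K :=
  ⟨f.support.sup (wd wt), mem_PW.2 fun _ hm => Finset.le_sup hm⟩

lemma PW_finite (hwt : ∀ i, 1 ≤ wt i) (K : ℕ) : Module.Finite F (PW F wt K) := by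
  have h1 : {m : Fin n →₀ ℕ | wd wt m ≤ K}.Finite := by
    refine (Set.finite_Iic (Finsupp.equivFunOnFinite.symm fun _ => K)).subset ?_
    intro m hm i
    have h2 : wt i * m i ≤ wd wt m :=
      Finset.single_le_sum (f := fun i => wt i * m i) (fun _ _ => Nat.zero_le _)
        (Finset.mem_univ i)
    have h3 : m i ≤ wt i * m i := Nat.le_mul_of_pos_left _ (hwt i)
    exact (h3.trans h2).trans hm
  have h2 : Finite {m : Fin n →₀ ℕ | wd wt m ≤ K} := h1
  exact Module.Finite.of_basis (basisRestrictSupport F {m : Fin n →₀ ℕ | wd wt m ≤ K})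

lemma levFinite (hwt : ∀ i, 1 ≤ wt i) (J : Ideal (MvPolynomial (Fin n) F)) (K : ℕ) :
    Module.Finite F (lev wt J K) := by
  have := PW_finite (F := F) hwt K
  unfold lev
  infer_instance

lemma mem_lev {J : Ideal (MvPolynomial (Fin n) F)} {K : ℕ}
    {x : MvPolynomial (Fin n) F ⧸ J} :
    x ∈ lev wt J K ↔ ∃ h : MvPolynomial (Fin n) F, h ∈ PW F wt K ∧ Ideal.Quotient.mk J h = x := by
  unfold lev
  rw [Submodule.mem_map]
  rfl

/-- rank nullity for the image of a subspace -/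
lemma rank_map {V W : Type} [AddCommGroup V] [Module F V] [AddCommGroup W] [Module F W]
    (φ : V →ₗ[F] W) (S T : Submodule F V) [Module.Finite F S] (hT : T ≤ S)
    (hk : T ≤ LinearMap.ker φ) :
    finrank F (S.map φ) + finrank F T ≤ finrank F S := by
  have h1 := LinearMap.finrank_range_add_finrank_ker (φ.domRestrict S)
  have h2 : LinearMap.range (φ.domRestrict S) = S.map φ := by
    rw [LinearMap.range_domRestrict]
  have h3 : finrank F T ≤ finrank F (LinearMap.ker (φ.domRestrict S)) := by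
    refine LinearMap.finrank_le_finrank_of_injective
      (f := ((Submodule.inclusion hT).codRestrict (LinearMap.ker (φ.domRestrict S)) ?_)) ?_
    · intro x
      rw [LinearMap.mem_ker]
      exact hk x.2
    · intro x y hxy
      have := congrArg (fun z => ((z : S) : V)) (congrArg Subtype.val hxy)
      exact Subtype.ext this
  rw [h2] at h1
  omega

theorem MUL : S_MUL := by
  intro F _ n wt hwt M P f hP hf hM K
  set J := P ⊔ Ideal.span {f} with hJ
  have hfl := levFinite (F := F) hwt P (K + M)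
  have hPJ : P ≤ J := le_sup_left
  have hfJ : f ∈ J := Ideal.mem_sup_right (Ideal.mem_span_singleton_self f)
  let φ : (MvPolynomial (Fin n) F ⧸ P) →ₗ[F] (MvPolynomial (Fin n) F ⧸ J) :=
    (Ideal.Quotient.factorₐ F hPJ).toLinearMap
  let μ : (MvPolynomial (Fin n) F ⧸ P) →ₗ[F] (MvPolynomial (Fin n) F ⧸ P) :=
    LinearMap.mulLeft F (Ideal.Quotient.mk P f)
  have hfne : Ideal.Quotient.mk P f ≠ 0 := fun h => hf (Ideal.Quotient.eq_zero_iff_mem.1 h)
  have hμ : Function.Injective μ := fun x y hxy => mul_left_cancel₀ hfne hxy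
  have hmap : (lev wt P (K + M)).map φ = lev wt J (K + M) := by
    apply le_antisymm
    · rintro _ ⟨x, hx, rfl⟩
      obtain ⟨h, h1, rfl⟩ := mem_lev.1 hx
      exact mem_lev.2 ⟨h, h1, rfl⟩
    · intro x hx
      obtain ⟨h, h1, rfl⟩ := mem_lev.1 hx
      exact ⟨Ideal.Quotient.mk P h, mem_lev.2 ⟨h, h1, rfl⟩, rfl⟩
  have key := rank_map φ (lev wt P (K + M)) ((lev wt P K).map μ) (by
      rintro _ ⟨x, hx, rfl⟩
      obtain ⟨h, h1, rfl⟩ := mem_lev.1 hx
      exact mem_lev.2 ⟨f * h, mul_mem_PW hM h1, map_mul _ _ _⟩) (by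
      rintro _ ⟨x, hx, rfl⟩
      obtain ⟨h, h1, rfl⟩ := mem_lev.1 hx
      rw [LinearMap.mem_ker]
      show Ideal.Quotient.mk J (f * h) = 0
      rw [Ideal.Quotient.eq_zero_iff_mem]
      exact J.mul_mem_right h hfJ)
  rw [hmap, ← (Submodule.equivMapOfInjective μ hμ (lev wt P K)).finrank_eq] at key
  exact key

theorem SUM : S_SUM := by
  classical
  intro F _ n wt hwt J s hs hanti
  have hg : ∀ Q : s, ∃ g : MvPolynomial (Fin n) F, g ∉ Q.1 ∧ ∀ Q' : s, Q' ≠ Q → g ∈ Q'.1 := by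
    intro Q
    have h1 : ∀ Q' : s, ∃ a : MvPolynomial (Fin n) F, a ∉ Q.1 ∧ (Q' ≠ Q → a ∈ Q'.1) := by
      intro Q'
      by_cases e : Q' = Q
      · refine ⟨1, fun h => (hs Q.1 Q.2).1.ne_top ((Ideal.eq_top_iff_one _).2 h), fun h => absurd e h⟩
      · have : ¬ Q'.1 ≤ Q.1 := fun h => e (Subtype.ext (hanti _ Q'.2 _ Q.2 h))
        obtain ⟨a, ha, ha2⟩ := SetLike.not_le_iff_exists.1 this
        exact ⟨a, ha2, fun _ => ha⟩
    choose a ha ha2 using h1
    refine ⟨∏ Q' : s, a Q', ?_, ?_⟩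
    · refine Finset.prod_induction a (fun x => x ∉ Q.1) ?_ ?_ (fun Q' _ => ha Q')
      · intro x y hx hy h
        rcases (hs Q.1 Q.2).1.mem_or_mem h with h | h
        · exact hx h
        · exact hy h
      · exact fun h => (hs Q.1 Q.2).1.ne_top ((Ideal.eq_top_iff_one _).2 h)
    · intro Q' hQ'
      rw [← Finset.mul_prod_erase Finset.univ a (Finset.mem_univ Q')]
      exact Q'.1.mul_mem_right _ (ha2 Q' hQ')
  choose g hg1 hg2 using hg
  choose dg hdg using fun Q => exists_PW wt (g Q)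
  refine ⟨Finset.univ.sup dg, fun K => ?_⟩
  set c := Finset.univ.sup dg with hc
  have hfK := levFinite (F := F) hwt J (K + c)
  have hfQ : ∀ Q : s, Module.Finite F (lev wt Q.1 K) := fun Q => levFinite hwt Q.1 K
  let Ψ : (MvPolynomial (Fin n) F ⧸ J) →ₗ[F] (∀ Q : s, MvPolynomial (Fin n) F ⧸ Q.1) :=
    LinearMap.pi fun Q => (Ideal.Quotient.factorₐ F (hs Q.1 Q.2).2).toLinearMap
  let Θ : (∀ Q : s, lev wt Q.1 K) →ₗ[F] (∀ Q : s, MvPolynomial (Fin n) F ⧸ Q.1) :=
    LinearMap.pi fun Q => (LinearMap.mulLeft F (Ideal.Quotient.mk Q.1 (g Q))) ∘ₗ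
      (lev wt Q.1 K).subtype ∘ₗ (LinearMap.proj Q)
  have hΘ : Function.Injective Θ := by
    intro x y hxy
    funext Q
    have h1 : Ideal.Quotient.mk Q.1 (g Q) * (x Q : MvPolynomial (Fin n) F ⧸ Q.1)
        = Ideal.Quotient.mk Q.1 (g Q) * (y Q : MvPolynomial (Fin n) F ⧸ Q.1) := congrFun hxy Q
    have := (hs Q.1 Q.2).1
    have h2 : Ideal.Quotient.mk Q.1 (g Q) ≠ 0 := fun h =>
      hg1 Q (Ideal.Quotient.eq_zero_iff_mem.1 h)
    exact Subtype.ext (mul_left_cancel₀ h2 h1)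
  have hle : LinearMap.range Θ ≤ (lev wt J (K + c)).map Ψ := by
    rintro _ ⟨v, rfl⟩
    have h1 : ∀ Q : s, ∃ h : MvPolynomial (Fin n) F, h ∈ PW F wt K ∧
        Ideal.Quotient.mk Q.1 h = (v Q : MvPolynomial (Fin n) F ⧸ Q.1) :=
      fun Q => mem_lev.1 (v Q).2
    choose h hh1 hh2 using h1
    refine ⟨Ideal.Quotient.mk J (∑ Q : s, g Q * h Q), mem_lev.2 ⟨_, ?_, rfl⟩, ?_⟩
    · refine Submodule.sum_mem _ fun Q _ => ?_
      have e2 : dg Q ≤ c := Finset.le_sup (f := dg) (Finset.mem_univ Q)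
      exact PW_mono (by omega) (mul_mem_PW (hdg Q) (hh1 Q))
    · funext Q
      show Ideal.Quotient.mk Q.1 (∑ Q' : s, g Q' * h Q') = Ideal.Quotient.mk Q.1 (g Q) * (v Q : _)
      rw [← hh2 Q, ← map_mul, Ideal.Quotient.eq]
      rw [← Finset.add_sum_erase Finset.univ _ (Finset.mem_univ Q), add_sub_cancel_left]
      refine Q.1.sum_mem fun Q' hQ' => Q.1.mul_mem_right _ (hg2 Q' Q ?_)
      exact (Finset.ne_of_mem_erase hQ').symm
  have hfree : ∀ Q : s, Module.Free F (lev wt Q.1 K) := fun Q => Module.Free.of_divisionRing F _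
  have hfin : finrank F (∀ Q : s, lev wt Q.1 K) = ∑ Q : s, finrank F (lev wt Q.1 K) :=
    Module.finrank_pi_fintype F
  have h5 : finrank F (LinearMap.range Θ) = ∑ Q : s, hil wt Q.1 K := by
    rw [LinearMap.finrank_range_of_inj hΘ, hfin]
    rfl
  calc ∑ Q ∈ s, hil wt Q K = ∑ Q : s, hil wt Q.1 K :=
        (Finset.sum_coe_sort s fun Q => hil wt Q K).symm
    _ = finrank F (LinearMap.range Θ) := h5.symm
    _ ≤ finrank F ((lev wt J (K + c)).map Ψ) := Submodule.finrank_mono hle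
    _ ≤ finrank F (lev wt J (K + c)) := Submodule.finrank_map_le _ _
    _ = hil wt J (K + c) := rfl

end Pool.Agent.N769.BK.MULSUM
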